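import Mathlib
import Pool.Agent.QPI.StmtsD

set_option autoImplicit false

namespace Pool.Agent.QPI.H44

open Nat

theorem le2 (k : ℕ) : k + 1 ≤ 2 ^ k := by
  have := Nat.lt_two_pow_self (n := k)
  omega

theorem fac_le (k : ℕ) : (k + 1).factorial ≤ 2 ^ (k * (k + 1)) := by
  calc (k + 1).factorial ≤ (k + 1) ^ (k + 1) := Nat.factorial_le_pow (k + 1)
    _ ≤ (2 ^ k) ^ (k + 1) := Nat.pow_le_pow_left (le2 k) _
    _ = 2 ^ (k * (k + 1)) := by rw [← pow_mul]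

theorem fac4_le (μ : ℕ) : (4 * μ).factorial ≤ 2 ^ (16 * μ ^ 2) := by
  calc (4 * μ).factorial ≤ (4 * μ) ^ (4 * μ) := Nat.factorial_le_pow (4 * μ)
    _ ≤ (2 ^ (4 * μ)) ^ (4 * μ) := Nat.pow_le_pow_left (Nat.lt_two_pow_self).le _
    _ = 2 ^ (16 * μ ^ 2) := by rw [← pow_mul]; ring_nf

theorem mel_le {m b L E : ℕ} (hL : L ≤ 2 ^ b) (hE : E ≤ 2 ^ b) :
    1 + m * E * L ≤ 2 ^ (m + 2 * b) := by
  have h1 : m + 1 ≤ 2 ^ m := le2 m
  have h2 : E * L ≤ 2 ^ b * 2 ^ b := Nat.mul_le_mul hE hL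
  have h3 : (1 : ℕ) ≤ 2 ^ b * 2 ^ b := Nat.one_le_iff_ne_zero.2 (by positivity)
  calc 1 + m * E * L = 1 + m * (E * L) := by ring
    _ ≤ 2 ^ b * 2 ^ b + m * (2 ^ b * 2 ^ b) := Nat.add_le_add h3 (Nat.mul_le_mul_left _ h2)
    _ = (m + 1) * (2 ^ b * 2 ^ b) := by ring
    _ ≤ 2 ^ m * (2 ^ b * 2 ^ b) := Nat.mul_le_mul_right _ h1
    _ = 2 ^ (m + 2 * b) := by rw [pow_add, two_mul, pow_add]

theorem l3_le {b L : ℕ} (hL : L ≤ 2 ^ b) : 3 + 2 * L ≤ 2 ^ (b + 3) := by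
  have h3 : (1 : ℕ) ≤ 2 ^ b := Nat.one_le_two_pow
  have : 2 ^ (b + 3) = 8 * 2 ^ b := by rw [pow_add]; ring
  omega

theorem bit : BitStmt := by
  intro k m M b μ L E Λ hL hE hΛ hμ
  set X := M + k + m + b + 1 with hX
  have a1 : (1 + m * E * L) ^ k * L ≤ 2 ^ ((m + 2 * b) * k + b) := by
    calc (1 + m * E * L) ^ k * L ≤ (2 ^ (m + 2 * b)) ^ k * 2 ^ b :=
          Nat.mul_le_mul (Nat.pow_le_pow_left (mel_le hL hE) _) hL
      _ = 2 ^ ((m + 2 * b) * k + b) := by rw [← pow_mul, ← pow_add]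
  have a2 : ((1 + m * E * L) ^ k * L) ^ (k + 1) ≤ 2 ^ (((m + 2 * b) * k + b) * (k + 1)) := by
    calc ((1 + m * E * L) ^ k * L) ^ (k + 1) ≤ (2 ^ ((m + 2 * b) * k + b)) ^ (k + 1) :=
          Nat.pow_le_pow_left a1 _
      _ = _ := by rw [← pow_mul]
  have a3 : (k + 1) * (2 ^ k * (3 + 2 * L)) ≤ 2 ^ (2 * k + b + 3) := by
    calc (k + 1) * (2 ^ k * (3 + 2 * L)) ≤ 2 ^ k * (2 ^ k * 2 ^ (b + 3)) :=
          Nat.mul_le_mul (le2 k) (Nat.mul_le_mul_left _ (l3_le hL))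
      _ = 2 ^ (2 * k + b + 3) := by rw [← pow_add, ← pow_add]; ring_nf
  have a4 : ((k + 1) * (2 ^ k * (3 + 2 * L))) ^ μ ≤ 2 ^ ((2 * k + b + 3) * μ) := by
    calc ((k + 1) * (2 ^ k * (3 + 2 * L))) ^ μ ≤ (2 ^ (2 * k + b + 3)) ^ μ :=
          Nat.pow_le_pow_left a3 _
      _ = _ := by rw [← pow_mul]
  have a5 : Λ ^ μ ≤ 2 ^ (b * μ) := by
    calc Λ ^ μ ≤ (2 ^ b) ^ μ := Nat.pow_le_pow_left hΛ _
      _ = _ := by rw [← pow_mul]
  have a6 : (k + 1) * ((k + 1).factorial * ((1 + m * E * L) ^ k * L) ^ (k + 1) *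
      ((k + 1) * (2 ^ k * (3 + 2 * L))) ^ μ) * Λ ^ μ ≤
      2 ^ (k + (k * (k + 1) + ((m + 2 * b) * k + b) * (k + 1) + (2 * k + b + 3) * μ) + b * μ) := by
    rw [pow_add 2 _ (b * μ), pow_add 2 k, pow_add 2 _ ((2 * k + b + 3) * μ),
      pow_add 2 (k * (k + 1))]
    exact Nat.mul_le_mul (Nat.mul_le_mul (le2 k)
      (Nat.mul_le_mul (Nat.mul_le_mul (fac_le k) a2) a4)) a5
  calc ((k + 1) * ((k + 1).factorial * ((1 + m * E * L) ^ k * L) ^ (k + 1) *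
      ((k + 1) * (2 ^ k * (3 + 2 * L))) ^ μ) * Λ ^ μ) ^ 2 * (4 * μ).factorial
      ≤ (2 ^ (k + (k * (k + 1) + ((m + 2 * b) * k + b) * (k + 1) + (2 * k + b + 3) * μ) +
        b * μ)) ^ 2 * 2 ^ (16 * μ ^ 2) :=
        Nat.mul_le_mul (Nat.pow_le_pow_left a6 _) (fac4_le μ)
    _ = 2 ^ ((k + (k * (k + 1) + ((m + 2 * b) * k + b) * (k + 1) + (2 * k + b + 3) * μ) +
        b * μ) * 2 + 16 * μ ^ 2) := by rw [← pow_mul, ← pow_add]
    _ ≤ 2 ^ (50 * X ^ 3) := by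
        apply Nat.pow_le_pow_right (by norm_num)
        have hk : k + 1 ≤ X := by omega
        have hm : m ≤ X := by omega
        have hb : b + 1 ≤ X := by omega
        have hkb : k + b + 1 ≤ X := by omega
        have hmb : m + b ≤ X := by omega
        have hμX : μ + 1 ≤ X := by omega
        have h1X : 1 ≤ X := by omega
        have t1 : k ≤ X ^ 3 := by
          calc k ≤ X := by omega
            _ ≤ X ^ 3 := Nat.le_self_pow (by norm_num) X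
        have t2 : k * (k + 1) ≤ X ^ 3 := by
          calc k * (k + 1) ≤ X * X := Nat.mul_le_mul (by omega) hk
            _ = X ^ 2 := by ring
            _ ≤ X ^ 3 := Nat.pow_le_pow_right h1X (by norm_num)
        have t3 : ((m + 2 * b) * k + b) * (k + 1) ≤ 3 * X ^ 3 := by
          calc ((m + 2 * b) * k + b) * (k + 1) ≤ ((2 * X) * X + X) * X := by
                apply Nat.mul_le_mul _ hk
                exact Nat.add_le_add (Nat.mul_le_mul (by omega) (by omega)) (by omega)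
            _ = 2 * X ^ 3 + X ^ 2 := by ring
            _ ≤ 2 * X ^ 3 + X ^ 3 := Nat.add_le_add_left (Nat.pow_le_pow_right h1X (by norm_num)) _
            _ = 3 * X ^ 3 := by ring
        have t4 : (2 * k + b + 3) * μ + b * μ ≤ 3 * X ^ 3 := by
          calc (2 * k + b + 3) * μ + b * μ = (2 * k + 2 * b + 3) * μ := by ring
            _ ≤ (3 * X) * X := Nat.mul_le_mul (by omega) (by omega)
            _ = 3 * X ^ 2 := by ring
            _ ≤ 3 * X ^ 3 := Nat.mul_le_mul_left _ (Nat.pow_le_pow_right h1X (by norm_num))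
        have t5 : μ ^ 2 ≤ X ^ 3 := by
          calc μ ^ 2 ≤ X ^ 2 := Nat.pow_le_pow_left (by omega) _
            _ ≤ X ^ 3 := Nat.pow_le_pow_right h1X (by norm_num)
        omega

end Pool.Agent.QPI.H44
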